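import Pool.Agent.H573.AHB.TuG
import Pool.Agent.H573.AHB.DnB

/-!
# MP_be1fae_nt: arbitrary positive coefficients, uniformly

For a finite set `T` of primes, `AtExponent T P₀ N z G` says: for all primes `5 ≤ p ≤ z` and all
positive integers `A`, `B` with `A + B < 2^p`, each of them the product of an integer `≤ z` and a
`T`-unit, where either `p` divides neither `A B` nor the class number of `ℚ(√(-AB))`, or `A`, `B`
are `T`-units and `p ≥ P₀`: every solution of `A x^m + B y^n = w^k` in integers with `x y ≠ 0`,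
`gcd(Ax, By) = 1`, `2N ∣ m`, `2N ∣ n`, `p ∣ k` and `AB ≢ 7 (mod 8)` or `w` odd has `A = 1`, `y`
divisible by `p` and all `q ∈ G`, and `|y| ≥ exp(z)`, or `B = 1` and the same for `x`. In particular
there is no solution at all if `A, B ≥ 2`.

(1) There is a set `S` of primes of positive logarithmic proportion (the sum of `1/s` over
`s ∈ S ∩ [X^{5/8}, X]` is bounded below) such that for every `T` there are `P₀` and `ε > 0` with
`AtExponent T P₀ s (s^ε) (G s)` for all large `s ∈ S`, with a set `G s` of at least `s^ε` primes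
`q ≡ 1 (mod s)`.
(2) For every `η > 0` there is `κ > 0` such that `AtExponent T P₀ N (N^κ) ∅` holds for all but at
most `η X` integers `N ≤ X`, for all large `X`.
-/

namespace Pool.Agent.Results.MP_be1fae_nt.GeneralCoefficientsManyPrimes

open Pool.Agent.H573.AHB NumberField

/-- `n` is the product of a natural number at most `z` and one whose prime factors all lie in `T` -/
def Coeff (T : Finset ℕ) (z : ℝ) (n : ℕ) : Prop :=
  ∃ a t : ℕ, (a : ℝ) ≤ z ∧ (∀ r : ℕ, r.Prime → r ∣ t → r ∈ T) ∧ n = a * t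

/-- `p` divides neither `A B` nor the class number of the quadratic field `ℚ(√(-AB))` -/
def GoodPrime (A B p : ℕ) : Prop :=
  ¬ p ∣ A * B ∧ ∃ (K : Type) (_ : Field K) (_ : NumberField K), Module.finrank ℚ K = 2 ∧
    (∃ w : K, w ^ 2 = -((A * B : ℕ) : K)) ∧ ¬ p ∣ classNumber K

/-- `x` is divisible by `p` and by all elements of `G`, and `|x| ≥ exp(z)` -/
def Large (p : ℕ) (G : Finset ℕ) (z : ℝ) (x : ℤ) : Prop :=
  (p : ℤ) ∣ x ∧ (∀ q ∈ G, (q : ℤ) ∣ x) ∧ Real.exp z ≤ |(x : ℝ)|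

/-- All solutions of `A x^m + B y^n = w^k` in integers with `x, y` nonzero, `Ax, By` coprime,
`w` odd or `AB` not `7` modulo `8`, and positive exponents with `2N ∣ m`, `2N ∣ n`, `p ∣ k`
have `A = 1` and `Large p G z y`, or `B = 1` and `Large p G z x`. In particular there are none
if `A, B ≥ 2`. -/
def OnlyLarge (A B p N : ℕ) (G : Finset ℕ) (z : ℝ) : Prop :=
  ∀ (x y w : ℤ) (m n k : ℕ), 0 < m → 0 < n → 0 < k → x ≠ 0 → y ≠ 0 →
    IsCoprime ((A : ℤ) * x) (B * y) → (A * B % 8 ≠ 7 ∨ Odd w) →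
    2 * N ∣ m → 2 * N ∣ n → p ∣ k → A * x ^ m + B * y ^ n = w ^ k →
    (A = 1 ∧ Large p G z y) ∨ (B = 1 ∧ Large p G z x)

/-- `OnlyLarge` for all primes `5 ≤ p ≤ z` and all coefficients `A`, `B` with `A + B < 2^p` which
are products of an integer `≤ z` and a `T`-unit, where `p` is a good prime for `A`, `B`, or `A`, `B`
are `T`-units and `p ≥ P₀` -/
def AtExponent (T : Finset ℕ) (P₀ N : ℕ) (z : ℝ) (G : Finset ℕ) : Prop :=
  ∀ p : ℕ, p.Prime → 5 ≤ p → (p : ℝ) ≤ z →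
    ∀ A B : ℕ, 0 < A → 0 < B → Coeff T z A → Coeff T z B → A + B < 2 ^ p →
      (GoodPrime A B p ∨ (P₀ ≤ p ∧ ∀ r : ℕ, r.Prime → r ∣ A * B → r ∈ T)) →
      OnlyLarge A B p N G z

theorem result :
    ∃ (S : Set ℕ) (G : ℕ → Finset ℕ),
      (∀ s ∈ S, s.Prime ∧ ∀ q ∈ G s, q.Prime ∧ s ∣ q - 1) ∧
      (∃ c : ℝ, 0 < c ∧ ∃ X₀ : ℕ, ∀ X : ℕ, X₀ ≤ X →
        c ≤ ∑ᶠ s ∈ {s : ℕ | s ∈ S ∧ (X : ℝ) ^ (5 / 8 : ℝ) ≤ s ∧ s ≤ X}, (1 : ℝ) / s) ∧
      ∀ T : Finset ℕ, ∃ P₀ : ℕ,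
        (∃ ε : ℝ, 0 < ε ∧ ∃ s₀ : ℕ, ∀ s ∈ S, s₀ ≤ s →
          (s : ℝ) ^ ε ≤ ((G s).card : ℝ) ∧ AtExponent T P₀ s ((s : ℝ) ^ ε) (G s)) ∧
        (∀ η : ℝ, 0 < η → ∃ κ : ℝ, 0 < κ ∧ ∃ X₁ : ℕ, ∀ X : ℕ, X₁ ≤ X →
          (Set.ncard {N : ℕ | N ≤ X ∧ ¬ AtExponent T P₀ N ((N : ℝ) ^ κ) ∅} : ℝ) ≤ η * X) := by
  classical
  obtain ⟨δ, hδ, S, hS1, hS2, G, hG, hfam⟩ := diagWW 1 le_rfl
    (fun j => FamT (Finset.range j)) (fun j => usparse_FamT _) 2
  refine ⟨S, G, fun s hs => ⟨(hS1 s hs).1, fun q hq => ?_⟩, hS2, ?_⟩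
  · obtain ⟨k1, -, k3⟩ := (hG s hs).2 q hq
    exact ⟨k1, k3⟩
  intro T
  obtain ⟨j, hj⟩ : ∃ j, j = T.sup id + 1 := ⟨_, rfl⟩
  have hTj : ∀ r ∈ T, r < j := by
    intro r hr
    have : r ≤ T.sup id := Finset.le_sup (f := id) hr
    omega
  obtain ⟨ε', hε', hev⟩ := hfam j
  obtain ⟨s₁, hs₁⟩ := Filter.eventually_atTop.mp hev
  obtain ⟨P₀, hP₀⟩ := class_bound T
  obtain ⟨ε, hε⟩ : ∃ ε, ε = min (min ε' 1) δ := ⟨_, rfl⟩
  have hε0 : 0 < ε := by rw [hε]; exact lt_min (lt_min hε' one_pos) hδ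
  have hεε' : ε ≤ ε' := by rw [hε]; exact (min_le_left _ _).trans (min_le_left _ _)
  have hε1 : ε ≤ 1 := by rw [hε]; exact (min_le_left _ _).trans (min_le_right _ _)
  have hεδ : ε ≤ δ := by rw [hε]; exact min_le_right _ _
  have main : ∀ s ∈ S, max s₁ j ≤ s →
      (s : ℝ) ^ ε ≤ ((G s).card : ℝ) ∧ AtExponent T P₀ s ((s : ℝ) ^ ε) (G s) := by
    intro s hsS hs0
    obtain ⟨hsp, hs2⟩ := hS1 s hsS
    have hs1 : (1 : ℝ) ≤ s := by exact_mod_cast (by omega : 1 ≤ s)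
    have hcardG : (s : ℝ) ^ ε ≤ ((G s).card : ℝ) :=
      (Real.rpow_le_rpow_of_exponent_le hs1 hεδ).trans (hG s hsS).1
    refine ⟨hcardG, ?_⟩
    intro p hp hp5 hpε A B hA hB hcA hcB hsz hgood
    obtain ⟨i, rfl⟩ : ∃ i, p = 2 * i + 1 := hp.odd_of_ne_two (by omega)
    obtain ⟨M, hM⟩ : ∃ M, M = ⌊(s : ℝ) ^ ε⌋₊ := ⟨_, rfl⟩
    have hZ1 : (1 : ℝ) ≤ (s : ℝ) ^ ε := Real.one_le_rpow hs1 hε0.le
    have hMle : (M : ℝ) ≤ (s : ℝ) ^ ε := by
      rw [hM]
      exact Nat.floor_le (by linarith)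
    have hMε : (M : ℝ) ≤ (s : ℝ) ^ ε' :=
      hMle.trans (Real.rpow_le_rpow_of_exponent_le hs1 hεε')
    have hMs : M ≤ s := by
      have : (M : ℝ) ≤ s := by
        refine hMle.trans ?_
        calc (s : ℝ) ^ ε ≤ (s : ℝ) ^ (1 : ℝ) := Real.rpow_le_rpow_of_exponent_le hs1 hε1
          _ = s := Real.rpow_one _
      exact_mod_cast this
    have hpM : 2 * i + 1 ≤ M := by
      rw [hM]
      exact Nat.le_floor hpε
    have hgood' : ¬ (2 * i + 1) ∣ A * B ∧ ∃ (K : Type) (_ : Field K) (_ : NumberField K),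
        Module.finrank ℚ K = 2 ∧ (∃ w : K, w ^ 2 = -((A * B : ℕ) : K)) ∧
          ¬ (2 * i + 1) ∣ classNumber K := by
      rcases hgood with h | ⟨h1, h2⟩
      · exact h
      · exact hP₀ (2 * i + 1) (A * B) h1 (Nat.mul_pos hA hB) h2 hp
    have hMT : ∀ C : ℕ, 0 < C → C < 2 ^ (2 * i + 1) → Coeff T ((s : ℝ) ^ ε) C →
        C ∈ MT (Finset.range j) M (2 ^ (2 * M + 1)) := by
      rintro C hC hC2 ⟨a, t, h1, h2, rfl⟩
      rw [mem_MT]
      have ha : 0 < a := Nat.pos_of_mul_pos_right hC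
      have ht : 0 < t := Nat.pos_of_mul_pos_left hC
      refine ⟨a, t, ⟨ha, ?_⟩, ?_, rfl⟩
      · rw [hM]
        exact Nat.le_floor h1
      · rw [mem_TUn]
        refine ⟨⟨ht, ?_⟩, ?_⟩
        · have e1 : t ≤ a * t := Nat.le_mul_of_pos_left _ ha
          have e2 : 2 ^ (2 * i + 1) ≤ 2 ^ (2 * M + 1) :=
            Nat.pow_le_pow_right (by norm_num) (by omega)
          omega
        · intro r hr
          rw [Nat.mem_primeFactors] at hr
          rw [Finset.mem_range]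
          exact hTj r (h2 r hr.1 hr.2.1)
    intro x y z m n k hm hn hk hx0 hy0 hco hz hsm hsn hpk heq
    obtain ⟨m', rfl⟩ := hsm
    obtain ⟨n', rfl⟩ := hsn
    obtain ⟨k', rfl⟩ := hpk
    have hlt : ∀ q ∈ G s, s < q := by
      intro q hq
      obtain ⟨k1, -, k3⟩ := (hG s hsS).2 q hq
      have := k1.two_le
      have := Nat.le_of_dvd (by omega) k3
      omega
    have hall : ∀ q ∈ G s, (A = 1 ∧ ((2 * i + 1 : ℕ) : ℤ) ∣ y ∧ (q : ℤ) ∣ y) ∨
        (B = 1 ∧ ((2 * i + 1 : ℕ) : ℤ) ∣ x ∧ (q : ℤ) ∣ x) := by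
      intro q hq
      obtain ⟨k1, -, k3⟩ := (hG s hsS).2 q hq
      have hlq := hlt q hq
      exact gen_coreF A B i s M (Finset.range j) hA hB hp hp5 hgood'.1 hsz
        (hMT A hA (by omega) hcA) (hMT B hB (by omega) hcB) (by omega) hgood'.2 hsp hs2 hMs
        (fun r hr => by
          rw [Finset.mem_range] at hr
          have := le_max_right s₁ j
          omega) x y z m' n' k' hx0 hy0 hco hz heq q k1 hlq
        (by omega) k3 (hs₁ s ((le_max_left _ _).trans hs0) hsS q hq M hMε)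
    -- the set `G s` is not empty
    have hGne : (G s).Nonempty := by
      rw [← Finset.card_pos]
      have e2 : (0 : ℝ) < ((G s).card : ℝ) := by linarith
      exact_mod_cast e2
    have hpp : Prime ((2 * i + 1 : ℕ) : ℤ) := Nat.prime_iff_prime_int.mp hp
    have hxy : IsCoprime x y := hco.of_mul_left_right.of_mul_right_right
    have hbig : ∀ t : ℤ, t ≠ 0 → (∀ q ∈ G s, (q : ℤ) ∣ t) →
        Real.exp ((s : ℝ) ^ ε) ≤ |(t : ℝ)| := by
      intro t ht h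
      have h1 := big_of_dvd (G s) t.natAbs (Int.natAbs_ne_zero.mpr ht) (fun q hq => by
        have := hlt q hq
        exact ⟨((hG s hsS).2 q hq).1, by omega, Int.natCast_dvd.mp (h q hq)⟩)
      have h2 : ((t.natAbs : ℕ) : ℝ) = |(t : ℝ)| := by
        rw [Nat.cast_natAbs, Int.cast_abs]
      rw [← h2]
      exact (Real.exp_le_exp.mpr hcardG).trans h1
    obtain ⟨q0, hq0⟩ := hGne
    rcases hall q0 hq0 with ⟨hA1, hpy, -⟩ | ⟨hB1, hpx, -⟩
    · left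
      have h1 : ∀ q ∈ G s, (q : ℤ) ∣ y := by
        intro q hq
        rcases hall q hq with ⟨-, -, h⟩ | ⟨-, h, -⟩
        · exact h
        · exact absurd (hxy.isUnit_of_dvd' h hpy) hpp.not_isUnit
      exact ⟨hA1, hpy, h1, hbig y hy0 h1⟩
    · right
      have h1 : ∀ q ∈ G s, (q : ℤ) ∣ x := by
        intro q hq
        rcases hall q hq with ⟨-, h, -⟩ | ⟨-, -, h⟩
        · exact absurd (hxy.isUnit_of_dvd' hpx h) hpp.not_isUnit
        · exact h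
      exact ⟨hB1, hpx, h1, hbig x hx0 h1⟩
  refine ⟨P₀, ⟨ε, hε0, max s₁ j, main⟩, ?_⟩
  refine almost_all_of S (fun s hs => (hS1 s hs).1) hS2 (fun z N => AtExponent T P₀ N z ∅) ε hε0
    (max s₁ j) ?_ ?_
  · intro s hs hs0 N hsN p hp hp5 hpz A B hA hB hcA hcB hsz hgood x y w m n k hm hn hk hx hy hco hw
      h2m h2n hpk heq
    rcases (main s hs hs0).2 p hp hp5 hpz A B hA hB hcA hcB hsz hgood x y w m n k hm hn hk hx hy
      hco hw ((Nat.mul_dvd_mul_left 2 hsN).trans h2m) ((Nat.mul_dvd_mul_left 2 hsN).trans h2n) hpk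
      heq with ⟨h1, h2, -, h4⟩ | ⟨h1, h2, -, h4⟩
    · exact Or.inl ⟨h1, h2, fun q hq => absurd hq (Finset.notMem_empty q), h4⟩
    · exact Or.inr ⟨h1, h2, fun q hq => absurd hq (Finset.notMem_empty q), h4⟩
  · intro z z' N hz hQ p hp hp5 hpz A B hA hB hcA hcB hsz hgood x y w m n k hm hn hk hx hy hco hw
      h2m h2n hpk heq
    have hup : ∀ C, Coeff T z C → Coeff T z' C := by
      rintro C ⟨a, t, h1, h2, h3⟩
      exact ⟨a, t, h1.trans hz, h2, h3⟩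
    rcases hQ p hp hp5 (hpz.trans hz) A B hA hB (hup A hcA) (hup B hcB) hsz hgood x y w m n k hm hn
      hk hx hy hco hw h2m h2n hpk heq with ⟨h1, h2, h3, h4⟩ | ⟨h1, h2, h3, h4⟩
    · exact Or.inl ⟨h1, h2, h3, (Real.exp_le_exp.mpr hz).trans h4⟩
    · exact Or.inr ⟨h1, h2, h3, (Real.exp_le_exp.mpr hz).trans h4⟩

end Pool.Agent.Results.MP_be1fae_nt.GeneralCoefficientsManyPrimes
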