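import Pool.Agent.H573.AHB.GTh
import Pool.Agent.H573.AHB.UnM
import Pool.Agent.H573.AHB.DnB

/-!
# MP_be1fae_nt: S-unit coefficients of unbounded size

`NoSolution k N` says: the equation `c² x^m ± y^n = z^K` has no solution in integers with `2N ∣ m`,
`2N ∣ n`, `k ∣ K`, `gcd(cx, y) = 1`, `gcd(k, cxy) = 1` (in the difference case `z` is odd) and with
any coefficient `c ≥ 1` for which there are no distinct odd primes `ℓ_q ∣ c`, one for every prime
power `q > 1` dividing `k`, with `ℓ_q ≡ ±1 (mod q)`.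

(1) There is a set of primes `s` of positive logarithmic proportion (the sum of `1/s` over its
elements in `[X^{5/8}, X]` is bounded below for all large `X`), such that for every odd `k` with at
least two prime factors (counted with multiplicity), `NoSolution k s` holds for all but finitely
many `s` in the set.
(2) For every such `k`, `NoSolution k N` holds for almost all integers `N` (the exceptional set has
density zero).

So `c` may be any integer with fewer prime factors than `k` (those of `k` counted with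
multiplicity), and any integer without prime factors `≡ ±1` modulo `q`, for some prime power
`q ∣ k`; for a finite set `T` of primes it may be any `T`-unit if `k` has more than `|T|` prime
factors or a prime power divisor `q > 1 + max T`.
-/

namespace Pool.Agent.Results.MP_be1fae_nt.SUnitCoefficientsManyPrimes

/-- There are distinct odd primes `ℓ q ∣ c`, one for every prime power `q > 1` dividing `k`, with
`ℓ q ≡ 1` or `ℓ q ≡ -1 (mod q)`. -/
def Matched (k c : ℕ) : Prop :=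
  ∃ ℓ : ℕ → ℕ, (∀ q, IsPrimePow q → q ∣ k →
      (ℓ q).Prime ∧ ℓ q ≠ 2 ∧ ℓ q ∣ c ∧ (q ∣ ℓ q - 1 ∨ q ∣ ℓ q + 1)) ∧
    ∀ q q', IsPrimePow q → IsPrimePow q' → q ∣ k → q' ∣ k → ℓ q = ℓ q' → q = q'

/-- There is no solution; the coefficient `c` is any positive integer such that `k` and `c` are not
matched. -/
def NoSolution (k N : ℕ) : Prop :=
  ∀ (c : ℕ) (x y z : ℤ) (m n K : ℕ), 0 < c → ¬ Matched k c →
    IsCoprime ((c : ℤ) * x) y → IsCoprime (k : ℤ) (c * x * y) →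
    2 * N ∣ m → 2 * N ∣ n → k ∣ K →
    (c : ℤ) ^ 2 * x ^ m + y ^ n ≠ z ^ K ∧
    (Odd z → (c : ℤ) ^ 2 * x ^ m - y ^ n ≠ z ^ K ∧ y ^ n - (c : ℤ) ^ 2 * x ^ m ≠ z ^ K)

open Pool.Agent.H573.AHB in
lemma main :
    ∃ S : Set ℕ, (∀ s ∈ S, s.Prime) ∧
      (∃ c : ℝ, 0 < c ∧ ∃ X₀ : ℕ, ∀ X : ℕ, X₀ ≤ X →
        c ≤ ∑ᶠ s ∈ {s : ℕ | s ∈ S ∧ (X : ℝ) ^ (5 / 8 : ℝ) ≤ s ∧ s ≤ X}, (1 : ℝ) / s) ∧
      ∀ k : ℕ, Odd k → 2 ≤ k.primeFactorsList.length → {s ∈ S | ¬ NoSolution k s}.Finite := by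
  classical
  obtain ⟨S, hS1, hS2, hS3⟩ := diagL (fun k q n => Odd k ∧
      (BadHJ (muOf k) 1 k.primeFactorsList.length q n ∨
        BadHJ (muOf k) (-1) k.primeFactorsList.length q n)) (by
    intro k
    by_cases hk : Odd k
    · exact ((sparse_badHJ (muOf k) (muOf_OKH k hk) 1 (Or.inl rfl) _).or
        (sparse_badHJ (muOf k) (muOf_OKH k hk) (-1) (Or.inr rfl) _)).mono (fun q n h => h.2)
    · exact Sparse.false.mono (fun q n h => hk h.1)) 2
  refine ⟨S, fun s hs => (hS1 s hs).1, hS2, ?_⟩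
  intro k hk hk2
  obtain ⟨s₀, hs₀⟩ := Filter.eventually_atTop.mp (hS3 k)
  refine (Set.finite_Iio s₀).subset ?_
  rintro s ⟨hsS, hns⟩
  by_contra hcon
  rw [Set.mem_Iio, not_lt] at hcon
  apply hns
  obtain ⟨q, hq, hsq, hnb⟩ := hs₀ s hcon hsS
  obtain ⟨hsp, hs2⟩ := hS1 s hsS
  have hsodd : Odd s := hsp.odd_of_ne_two (by omega)
  have hnb1 : ¬ BadHJ (muOf k) 1 k.primeFactorsList.length q ((q - 1) / s) :=
    fun h => hnb ⟨hk, Or.inl h⟩
  have hnb2 : ¬ BadHJ (muOf k) (-1) k.primeFactorsList.length q ((q - 1) / s) :=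
    fun h => hnb ⟨hk, Or.inr h⟩
  have hOK := muOf_OKH k hk
  have hpr : ∀ i, (2 * muOf k i + 1).Prime := by
    intro i
    rw [(muOf_spec k hk i).1]
    exact (muOf_spec k hk i).2
  have hHK := muOf_HK k hk
  rintro c x y z m n K hc hcj hco hkc ⟨m', rfl⟩ ⟨n', rfl⟩ ⟨K', rfl⟩
  have hcj' : ¬ Pool.Agent.H573.AHB.Matched (HK (muOf k) k.primeFactorsList.length) c := by
    rw [hHK]
    exact hcj
  have hpk : ∀ i < k.primeFactorsList.length,
      ¬ ((2 * muOf k i + 1 : ℕ) : ℤ) ∣ (c : ℤ) * x * y := by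
    intro i hi h
    have h1 : ((2 * muOf k i + 1 : ℕ) : ℤ) ∣ (k : ℤ) := Int.natCast_dvd_natCast.mpr (muOf_dvd k hk i hi)
    have h2 := hkc.isUnit_of_dvd' h1 h
    rw [Int.isUnit_iff_natAbs_eq, Int.natAbs_natCast] at h2
    exact (hpr i).one_lt.ne' h2
  have hpp : ∀ i, Prime ((2 * muOf k i + 1 : ℕ) : ℤ) := fun i =>
    Nat.prime_iff_prime_int.mp (hpr i)
  have hpX : ∀ i < k.primeFactorsList.length,
      ¬ ((2 * muOf k i + 1 : ℕ) : ℤ) ∣ (c : ℤ) * x ^ m' := by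
    intro i hi h
    apply hpk i hi
    rcases (hpp i).dvd_or_dvd h with h1 | h1
    · exact (h1.mul_right x).mul_right y
    · exact (((hpp i).dvd_of_dvd_pow h1).mul_left _).mul_right y
  have hpY : ∀ i < k.primeFactorsList.length,
      ¬ ((2 * muOf k i + 1 : ℕ) : ℤ) ∣ y ^ n' := by
    intro i hi h
    exact hpk i hi (((hpp i).dvd_of_dvd_pow h).mul_left _)
  have hco2 : IsCoprime ((c : ℤ) * x ^ m') (y ^ n') := by
    have e1 := hco.of_mul_left_left
    have e2 := hco.of_mul_left_right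
    exact (e1.mul_left e2.pow_left).pow_right
  have e1 : x ^ (2 * s * m') = (x ^ m') ^ (2 * s) := by rw [← pow_mul, mul_comm m']
  have e2 : y ^ (2 * s * n') = (y ^ n') ^ (2 * s) := by rw [← pow_mul, mul_comm n']
  have e3 : z ^ (k * K') = (z ^ K') ^ (HK (muOf k) k.primeFactorsList.length) := by
    rw [hHK, ← pow_mul, mul_comm K']
  rw [e1, e2, e3]
  refine ⟨?_, fun hz => ⟨?_, ?_⟩⟩
  · intro heq
    exact H_local' (muOf k) hOK hpr (-1) (Or.inr rfl) _ s q hk2 hsodd hq hsq hnb2 c hc hcj'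
      (x ^ m') (y ^ n') (z ^ K') hco2 (by norm_num) hpX hpY (by rw [← heq]; ring)
  · intro heq
    exact H_local' (muOf k) hOK hpr 1 (Or.inl rfl) _ s q hk2 hsodd hq hsq hnb1 c hc hcj'
      (x ^ m') (y ^ n') (z ^ K') hco2 (fun _ => hz.pow) hpX hpY (by rw [← heq]; ring)
  · intro heq
    have hodd : Odd (HK (muOf k) k.primeFactorsList.length) := HK_odd _ _
    exact H_local' (muOf k) hOK hpr 1 (Or.inl rfl) _ s q hk2 hsodd hq hsq hnb1 c hc hcj'
      (x ^ m') (y ^ n') (-(z ^ K')) hco2 (fun _ => hz.pow.neg) hpX hpY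
      (by rw [hodd.neg_pow, ← heq]; ring)

open Pool.Agent.H573.AHB in
theorem result :
    (∃ S : Set ℕ, (∀ s ∈ S, s.Prime) ∧
      (∃ c : ℝ, 0 < c ∧ ∃ X₀ : ℕ, ∀ X : ℕ, X₀ ≤ X →
        c ≤ ∑ᶠ s ∈ {s : ℕ | s ∈ S ∧ (X : ℝ) ^ (5 / 8 : ℝ) ≤ s ∧ s ≤ X}, (1 : ℝ) / s) ∧
      ∀ k : ℕ, Odd k → 2 ≤ k.primeFactorsList.length → {s ∈ S | ¬ NoSolution k s}.Finite) ∧
    (∀ k : ℕ, Odd k → 2 ≤ k.primeFactorsList.length → ∀ η : ℝ, 0 < η → ∃ X₁ : ℕ, ∀ X : ℕ, X₁ ≤ X →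
      (Set.ncard {N : ℕ | N ≤ X ∧ ¬ NoSolution k N} : ℝ) ≤ η * X) := by
  refine ⟨main, ?_⟩
  obtain ⟨S, hS1, hdens, hS3⟩ := main
  intro k hk hk2 η hη
  obtain ⟨s₀, hs₀⟩ := (hS3 k hk hk2).bddAbove
  have h1 : ∀ s ∈ S, s₀ + 1 ≤ s → ∀ N, s ∣ N → NoSolution k N := by
    intro s hs hs1 N hsN
    have h2 : NoSolution k s := by
      by_contra hcon
      have := hs₀ ⟨hs, hcon⟩
      omega
    intro c x y z m n K hc hcj hco hkc hm hn hK
    exact h2 c x y z m n K hc hcj hco hkc ((Nat.mul_dvd_mul_left 2 hsN).trans hm)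
      ((Nat.mul_dvd_mul_left 2 hsN).trans hn) hK
  obtain ⟨-, -, X₁, hX₁⟩ := almost_all_of S hS1 hdens (fun _ N => NoSolution k N) 1 one_pos
    (s₀ + 1) h1 (fun _ _ _ _ h => h) η hη
  exact ⟨X₁, hX₁⟩

end Pool.Agent.Results.MP_be1fae_nt.SUnitCoefficientsManyPrimes
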