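import Pool.Agent.H912.AE.Ex2
import Pool.Agent.H912.AE.Avg

/-!
# Generalised Fermat equations, and arbitrary families of varieties, with `S`-unit coefficients

Let `p_0, ..., p_s` be primes.  We consider the vectors of `S`-units
`c_l = σ_l p_0^{e_{l,0}} ... p_s^{e_{l,s}}`, `σ_l = ±1`, and count them by their exponents.

Part 3: for `100%` of all `m`, only a proportion `≤ ε` of the `S`-unit vectors
`(c_0, ..., c_n)` modulo `m`-th powers belongs to a solution of a generalised Fermat equation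
`c_0 x_0^{k_0} + ... + c_n x_n^{k_n} = 0` with exponents `k_l` divisible by `m`.

Parts 1 and 2 are for arbitrary families `(X_c)` of closed subsets of `ℙ^n` with parameters
`c_1, ..., c_R` which are `S`-units, and for
`X_{c,m} = {x ∈ ℙ^n : (x_0^m : ... : x_n^m) ∈ X_c}`: `100%` of the `X_{c,m}` satisfy the Hasse
principle, and the proportion of those with a rational point exists and is `0`, `1/2` or `1`.
-/

set_option autoImplicit false

open Filter Topology

namespace Pool.Agent.Results.MP_be1fae_nt.SUnitVectors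

variable {R n s : ℕ}

/-- The polynomials in `S` define a family of closed subsets `X_c` of `ℙ^n` with the parameters
`c = (c_1, ..., c_R)`: they are forms in the last `n + 1` of their `R + (n + 1)` variables. -/
def IsFamily (S : Set (MvPolynomial (Fin (R + (n + 1))) ℚ)) : Prop :=
  ∀ F ∈ S, ∃ d, ∀ α ∈ F.support, ∑ j : Fin (n + 1), α (Fin.natAdd R j) = d

/-- `x` is a vector of homogeneous coordinates of a point over `K` of
`X_{c,m} = {x : F(c; x_0^m, ..., x_n^m) = 0 for all F in S}`. -/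
def IsPt (S : Set (MvPolynomial (Fin (R + (n + 1))) ℚ)) (c : Fin R → ℤ) (m : ℕ) {K : Type}
    [Field K] [Algebra ℚ K] (x : Fin (n + 1) → K) : Prop :=
  x ≠ 0 ∧ ∀ F ∈ S,
    MvPolynomial.aeval (Fin.append (fun i => (c i : K)) (fun j => x j ^ m)) F = 0

/-- `X_{c,m}` has a point over `K`. -/
def HasPt (S : Set (MvPolynomial (Fin (R + (n + 1))) ℚ)) (c : Fin R → ℤ) (m : ℕ) (K : Type)
    [Field K] [Algebra ℚ K] : Prop :=
  ∃ x : Fin (n + 1) → K, IsPt S c m x

/-- The base locus of the family (the intersection of all `X_c = X_{c,1}`, `c ∈ ℤ^R`) has a point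
whose homogeneous coordinates may be chosen in `E`. -/
def BasePt (S : Set (MvPolynomial (Fin (R + (n + 1))) ℚ)) (E : Set ℚ) : Prop :=
  ∃ η : Fin (n + 1) → ℚ, (∀ i, η i ∈ E) ∧ ∀ c : Fin R → ℤ, IsPt S c 1 η

open Classical in
/-- `1` if the base locus has a point with coordinates in `{0, 1}`, otherwise `1/2` if it has a
point with coordinates in `{0, 1, -1}`, otherwise `0`. -/
noncomputable def dens (S : Set (MvPolynomial (Fin (R + (n + 1))) ℚ)) : ℝ :=
  if BasePt S {0, 1} then 1 else if BasePt S {0, 1, -1} then 1 / 2 else 0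

/-- `σ` is a vector of signs. -/
def IsSign (σ : Fin R → ℤ) : Prop := ∀ l, σ l = 1 ∨ σ l = -1

/-- The vector `c` with `c_l = σ_l p_0^{e_{l,0}} ... p_s^{e_{l,s}}`. -/
def sUnits (p : Fin (s + 1) → ℕ) (σ : Fin R → ℤ) (e : Fin R → Fin (s + 1) → ℕ) : Fin R → ℤ :=
  fun l => σ l * ∏ j, (p j : ℤ) ^ e l j

open Classical in
/-- The number of the matrices of exponents `e` in the box `∏ [a_{l,j}, a_{l,j} + H_{l,j})` with
the property `P`. -/
noncomputable def inBox (a H : Fin R → Fin (s + 1) → ℕ) (P : (Fin R → Fin (s + 1) → ℕ) → Prop) :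
    ℕ :=
  ((Fintype.piFinset fun l => Fintype.piFinset fun j =>
    Finset.Ico (a l j) (a l j + H l j)).filter P).card

/-- The number of matrices in a box with the sides `H`. -/
noncomputable def vol (H : Fin R → Fin (s + 1) → ℕ) : ℝ := ∏ l, ∏ j, (H l j : ℝ)

/-- The number of the pairs `(m, e)` with `1 ≤ m ≤ M`, with `e` in the box
`∏ [a_{l,j}, a_{l,j} + H_{l,j})`, and with the property `P m e`. -/
noncomputable def pairs (M : ℕ) (a H : Fin R → Fin (s + 1) → ℕ)
    (P : ℕ → (Fin R → Fin (s + 1) → ℕ) → Prop) : ℕ :=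
  ∑ m ∈ Finset.Icc 1 M, inBox a H (P m)

/-- The set `A` of positive integers has natural density `δ`. -/
def HasDensity (A : Set ℕ) (δ : ℝ) : Prop :=
  Tendsto (fun N : ℕ => ((A ∩ Set.Icc 1 N).ncard : ℝ) / N) atTop (𝓝 δ)

/-- There is a solution `x ≠ 0` in integers of a generalised Fermat equation
`∑ σ_l p_0^{α_{l,0}} ... p_s^{α_{l,s}} x_l^{k_l} = 0` whose coefficients belong to the class
modulo `m`-th powers given by the exponents `e` (that is, `α ≡ e` modulo `m`) and whose exponents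
`k_l > 0` are divisible by `m`. -/
def Solvable (p : Fin (s + 1) → ℕ) (m : ℕ) (σ : Fin (n + 1) → ℤ)
    (e : Fin (n + 1) → Fin (s + 1) → ℕ) : Prop :=
  ∃ (α : Fin (n + 1) → Fin (s + 1) → ℕ) (k : Fin (n + 1) → ℕ) (x : Fin (n + 1) → ℤ),
    (∀ l j, α l j ≡ e l j [MOD m]) ∧ (∀ l, 0 < k l ∧ m ∣ k l) ∧ x ≠ 0 ∧
    ∑ l, sUnits p σ α l * x l ^ k l = 0

lemma inBox_le (a H : Fin R → Fin (s + 1) → ℕ) (P : (Fin R → Fin (s + 1) → ℕ) → Prop) :
    (inBox a H P : ℝ) ≤ vol H := by
  classical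
  have h1 : inBox a H P ≤ ∏ l, ∏ j, H l j := by
    refine (Finset.card_filter_le _ _).trans (le_of_eq ?_)
    rw [Fintype.card_piFinset]
    refine Finset.prod_congr rfl fun l _ => ?_
    rw [Fintype.card_piFinset]
    refine Finset.prod_congr rfl fun j _ => ?_
    rw [Nat.card_Ico, Nat.add_sub_cancel_left]
  unfold vol
  exact_mod_cast h1

lemma inBox_true (a H : Fin R → Fin (s + 1) → ℕ) {P : (Fin R → Fin (s + 1) → ℕ) → Prop}
    (h : ∀ e, P e) : (inBox a H P : ℝ) = vol H := by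
  classical
  have h1 : inBox a H P = ∏ l, ∏ j, H l j := by
    rw [inBox, Finset.filter_true_of_mem fun c _ => h c, Fintype.card_piFinset]
    refine Finset.prod_congr rfl fun l _ => ?_
    rw [Fintype.card_piFinset]
    refine Finset.prod_congr rfl fun j _ => ?_
    rw [Nat.card_Ico, Nat.add_sub_cancel_left]
  unfold vol
  exact_mod_cast h1

lemma inBox_mono (a H : Fin R → Fin (s + 1) → ℕ) {P Q : (Fin R → Fin (s + 1) → ℕ) → Prop}
    (h : ∀ e, P e → Q e) : (inBox a H P : ℝ) ≤ inBox a H Q := by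
  classical
  have : inBox a H P ≤ inBox a H Q :=
    Finset.card_le_card (Finset.monotone_filter_right _ fun c _ => h c)
  exact_mod_cast this

lemma inBox_false (a H : Fin R → Fin (s + 1) → ℕ) {P : (Fin R → Fin (s + 1) → ℕ) → Prop}
    (h : ∀ e, ¬ P e) : inBox a H P = 0 := by
  classical
  rw [inBox, Finset.filter_false_of_mem fun c _ => h c, Finset.card_empty]

lemma inBox_mono' (a H : Fin R → Fin (s + 1) → ℕ) {P Q : (Fin R → Fin (s + 1) → ℕ) → Prop}
    (h : ∀ e, (∀ l j, e l j < a l j + H l j) → P e → Q e) :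
    (inBox a H P : ℝ) ≤ inBox a H Q := by
  classical
  have : inBox a H P ≤ inBox a H Q := by
    refine Finset.card_le_card fun e he => ?_
    rw [Finset.mem_filter, Fintype.mem_piFinset] at he ⊢
    refine ⟨he.1, h e (fun l j => ?_) he.2⟩
    exact (Finset.mem_Ico.1 ((Fintype.mem_piFinset.1 (he.1 l)) j)).2
  exact_mod_cast this

lemma vol_nonneg (H : Fin R → Fin (s + 1) → ℕ) : 0 ≤ vol H :=
  Finset.prod_nonneg fun _ _ => Finset.prod_nonneg fun _ _ => Nat.cast_nonneg _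

open Classical in
/-- the count for fixed `m` -/
theorem main_count {S : Set (MvPolynomial (Fin (R + (n + 1))) ℚ)}
    {S' : Finset (MvPolynomial (Fin (R + (n + 1))) ℤ)}
    (hS' : ∀ F ∈ S', ∃ d, Pool.Agent.H912.AE.FormY F d)
    (hSS : ∀ (K : Type) [Field K] [Algebra ℚ K] (z : Fin (R + (n + 1)) → K),
        (∀ F ∈ S', MvPolynomial.aeval z F = 0) ↔ ∀ F ∈ S, MvPolynomial.aeval z F = 0)
    {p : Fin (s + 1) → ℕ} (hp : ∀ j, (p j).Prime) (ε : ℝ) (hε : 0 < ε) :
    ∃ H₀ N₀ : ℕ, ∀ M : ℕ, N₀ ≤ M → (((Finset.range M).filter (fun m =>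
      ¬ (Pool.Agent.H912.AE.TrivB S' m ∨
        ∀ ω : (Fin R → ℤ) × (Fin R → Fin (s + 1) → ℕ) × (Fin R → Fin (s + 1) → ℕ),
          (IsSign ω.1 ∧ ∀ l j, H₀ ≤ ω.2.2 l j) →
          (inBox ω.2.1 ω.2.2 (fun e => ∀ (q : ℕ) [Fact q.Prime], q ≤ H₀ →
            HasPt S (sUnits p ω.1 e) m ℚ_[q]) : ℝ) ≤ ε * vol ω.2.2))).card : ℝ) ≤ ε * M := by
  obtain ⟨H₀, N₀, h⟩ := Pool.Agent.H912.AE.familiesS S' hS' p (fun j => (hp j).two_le) hε
  refine ⟨H₀, N₀, fun M hM => le_trans ?_ (h M hM)⟩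
  have hsub : (Finset.range M).filter (fun m => ¬ (Pool.Agent.H912.AE.TrivB S' m ∨
        ∀ ω : (Fin R → ℤ) × (Fin R → Fin (s + 1) → ℕ) × (Fin R → Fin (s + 1) → ℕ),
          (IsSign ω.1 ∧ ∀ l j, H₀ ≤ ω.2.2 l j) →
          (inBox ω.2.1 ω.2.2 (fun e => ∀ (q : ℕ) [Fact q.Prime], q ≤ H₀ →
            HasPt S (sUnits p ω.1 e) m ℚ_[q]) : ℝ) ≤ ε * vol ω.2.2)) ⊆
      (Finset.range M).filter (fun m => ¬ (Pool.Agent.H912.AE.TrivB S' m ∨
        ∀ (σ : Fin R → ℤ) (a H : Fin R → Fin (s + 1) → ℕ),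
        (∀ l, σ l = 1 ∨ σ l = -1) → (∀ l j, H₀ ≤ H l j) →
        (((Pool.Agent.H912.AE.ebox a H).filter (fun e => ∀ (q : ℕ) [Fact q.Prime], q ≤ H₀ →
          Pool.Agent.H912.AE.HasQ S' m (Pool.Agent.H912.AE.coefS p σ e) q)).card : ℝ) ≤
            ε * ∏ l, ∏ j, (H l j : ℝ))) := by
    intro m hm
    rw [Finset.mem_filter] at hm ⊢
    refine ⟨hm.1, fun h2 => hm.2 (h2.imp id fun h3 ω hω => le_trans ?_
      (h3 ω.1 ω.2.1 ω.2.2 hω.1 hω.2))⟩
    have h4 : inBox ω.2.1 ω.2.2 (fun e => ∀ (q : ℕ) [Fact q.Prime], q ≤ H₀ →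
        HasPt S (sUnits p ω.1 e) m ℚ_[q]) ≤
        ((Pool.Agent.H912.AE.ebox ω.2.1 ω.2.2).filter (fun e => ∀ (q : ℕ) [Fact q.Prime],
          q ≤ H₀ → Pool.Agent.H912.AE.HasQ S' m
            (Pool.Agent.H912.AE.coefS p ω.1 e) q)).card := by
      refine Finset.card_le_card (Finset.monotone_filter_right _ fun e _ he q _ hq => ?_)
      obtain ⟨x, hx, h⟩ := he q hq
      exact ⟨x, hx, (hSS ℚ_[q] _).2 h⟩
    exact_mod_cast h4
  exact_mod_cast Finset.card_le_card hsub

/-- the diagonal form with all its coefficients as parameters -/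
noncomputable def diag (n : ℕ) : MvPolynomial (Fin ((n + 1) + (n + 1))) ℚ :=
  ∑ l : Fin (n + 1), MvPolynomial.X (Fin.castAdd (n + 1) l) *
    MvPolynomial.X (Fin.natAdd (n + 1) l)

lemma aeval_diag {K : Type} [Field K] [Algebra ℚ K] (c y : Fin (n + 1) → K) :
    MvPolynomial.aeval (Fin.append c y) (diag n) = ∑ l, c l * y l := by
  simp only [diag, map_sum, map_mul, MvPolynomial.aeval_X, Fin.append_left, Fin.append_right]

lemma isFamily_diag : IsFamily {diag n} := by
  classical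
  rintro F rfl
  refine ⟨1, fun α hα => ?_⟩
  have h1 := MvPolynomial.support_sum hα
  rw [Finset.mem_biUnion] at h1
  obtain ⟨l, -, hl⟩ := h1
  have h2 : (MvPolynomial.X (Fin.castAdd (n + 1) l) * MvPolynomial.X (Fin.natAdd (n + 1) l) :
      MvPolynomial (Fin ((n + 1) + (n + 1))) ℚ) = MvPolynomial.monomial
        (Finsupp.single (Fin.castAdd (n + 1) l) 1 + Finsupp.single (Fin.natAdd (n + 1) l) 1) 1 := by
    rw [MvPolynomial.X, MvPolynomial.X, MvPolynomial.monomial_mul, one_mul]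
  rw [h2] at hl
  have h3 := Finset.mem_singleton.1 (MvPolynomial.support_monomial_subset hl)
  rw [h3]
  have h4 : ∀ j : Fin (n + 1), ((Finsupp.single (Fin.castAdd (n + 1) l) 1 +
      Finsupp.single (Fin.natAdd (n + 1) l) 1 : Fin ((n + 1) + (n + 1)) →₀ ℕ))
        (Fin.natAdd (n + 1) j) = if j = l then 1 else 0 := by
    intro j
    rw [Finsupp.add_apply, Finsupp.single_apply, Finsupp.single_apply]
    have h5 : Fin.castAdd (n + 1) l ≠ Fin.natAdd (n + 1) j := by
      intro h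
      have := congrArg Fin.val h
      simp only [Fin.val_castAdd, Fin.val_natAdd] at this
      omega
    rw [if_neg h5, zero_add]
    by_cases hj : j = l
    · rw [hj, if_pos rfl, if_pos rfl]
    · rw [if_neg hj, if_neg]
      intro h
      have := congrArg Fin.val h
      simp only [Fin.val_natAdd] at this
      exact hj (Fin.ext (by omega))
  rw [Finset.sum_congr rfl fun j _ => h4 j]
  simp

/-- a solution in a class of coefficients gives a point of the diagonal hypersurface -/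
lemma hasPt_of_solvable {p : Fin (s + 1) → ℕ} (hp : ∀ j, (p j).Prime) {m : ℕ}
    {σ : Fin (n + 1) → ℤ} {e : Fin (n + 1) → Fin (s + 1) → ℕ} (he : ∀ l j, e l j < m)
    (h : Solvable p m σ e) : HasPt {diag n} (sUnits p σ e) m ℚ := by
  obtain ⟨α, k, x, hα, hk, hx, hsum⟩ := h
  have hp0 : ∀ j, ((p j : ℕ) : ℤ) ≠ 0 := fun j => by exact_mod_cast (hp j).ne_zero
  refine ⟨fun l => (((∏ j, (p j : ℤ) ^ (α l j / m)) * x l ^ (k l / m) : ℤ) : ℚ), ?_, ?_⟩
  · obtain ⟨i, hi⟩ := Function.ne_iff.1 hx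
    intro h0
    have h1 := congrFun h0 i
    simp only [Pi.zero_apply, Int.cast_eq_zero] at h1
    exact mul_ne_zero (Finset.prod_ne_zero_iff.2 fun j _ => pow_ne_zero _ (hp0 j))
      (pow_ne_zero _ hi) h1
  · rintro F rfl
    rw [aeval_diag]
    have h1 : ∀ l, ((sUnits p σ e l : ℤ) : ℚ) *
        (((∏ j, (p j : ℤ) ^ (α l j / m)) * x l ^ (k l / m) : ℤ) : ℚ) ^ m =
        ((sUnits p σ α l * x l ^ k l : ℤ) : ℚ) := by
      intro l
      have h2 : sUnits p σ e l * ((∏ j, (p j : ℤ) ^ (α l j / m)) * x l ^ (k l / m)) ^ m =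
          sUnits p σ α l * x l ^ k l := by
        rw [mul_pow, ← pow_mul, Nat.div_mul_cancel (hk l).2, ← Finset.prod_pow]
        unfold sUnits
        rw [← mul_assoc, mul_assoc (σ l), ← Finset.prod_mul_distrib]
        congr 2
        refine Finset.prod_congr rfl fun j _ => ?_
        rw [← pow_mul, ← pow_add]
        congr 1
        have h3 : α l j % m = e l j := by
          have := hα l j
          rw [Nat.ModEq, Nat.mod_eq_of_lt (he l j)] at this
          exact this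
        have h4 := Nat.mod_add_div (α l j) m
        rw [h3] at h4
        rw [mul_comm (α l j / m) m]
        exact h4
      rw [← h2]
      push_cast
      ring
    rw [Finset.sum_congr rfl fun l _ => h1 l, ← Int.cast_sum, hsum, Int.cast_zero]

/-- **Main theorem.** Let `p_0, ..., p_s` be primes.

1. (Hasse principle.)  Let `(X_c)` be an arbitrary family of closed subsets of `ℙ^n` over `ℚ` with
   the parameters `c = (c_1, ..., c_R)`, and let
   `X_{c,m} = {x : (x_0^m : ... : x_n^m) ∈ X_c}`.  For every `ε > 0` there is `H₀` such that, for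
   all `M ≥ H₀`, all signs and all boxes of exponents with sides `≥ H₀`, at most `ε M vol` of the
   pairs `(m, e)`, `m ≤ M`, `e` in the box, are such that `X_{c,m}`, `c_l = σ_l ∏ p_j^{e_{l,j}}`,
   has no rational point although it has a `ℚ_q`-point for all primes `q ≤ H₀`.
2. The proportion of the pairs `(m, e)` for which `X_{c,m}` has a rational point tends (in the
   same uniform sense) to `dens S`: `1` if the base locus of `(X_c)` has a point with coordinates in
   `{0, 1}`, otherwise `1/2` if it has a point with coordinates in `{0, 1, -1}`, otherwise `0`.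
3. (Generalised Fermat equations with `S`-unit coefficients.)  For every `ε > 0`, all `n` and all
   `m` outside a set of density zero: for all signs `σ`, at most `ε m^{(n+1)(s+1)}` of the
   `m^{(n+1)(s+1)}` classes modulo `m`-th powers of vectors of coefficients
   `c_l = σ_l ∏ p_j^{e_{l,j}}` contain the coefficients of a generalised Fermat equation
   `c_0 x_0^{k_0} + ... + c_n x_n^{k_n} = 0` with exponents `k_l > 0` divisible by `m` and with a
   solution `x ≠ 0` in integers. -/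
theorem result (p : Fin (s + 1) → ℕ) (hp : ∀ j, (p j).Prime) :
    (∀ S : Set (MvPolynomial (Fin (R + (n + 1))) ℚ), IsFamily S →
      (∀ ε : ℝ, 0 < ε → ∃ H₀ : ℕ, ∀ (M : ℕ) (σ : Fin R → ℤ) (a H : Fin R → Fin (s + 1) → ℕ),
        H₀ ≤ M → IsSign σ → (∀ l j, H₀ ≤ H l j) →
        (pairs M a H (fun m e => (∀ (q : ℕ) [Fact q.Prime], q ≤ H₀ →
          HasPt S (sUnits p σ e) m ℚ_[q]) ∧ ¬ HasPt S (sUnits p σ e) m ℚ) : ℝ) ≤
            ε * (M * vol H)) ∧
      (∀ ε : ℝ, 0 < ε → ∃ H₀ : ℕ, ∀ (M : ℕ) (σ : Fin R → ℤ) (a H : Fin R → Fin (s + 1) → ℕ),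
        H₀ ≤ M → IsSign σ → (∀ l j, H₀ ≤ H l j) →
        |(pairs M a H (fun m e => HasPt S (sUnits p σ e) m ℚ) : ℝ) - dens S * (M * vol H)| ≤
          ε * (M * vol H))) ∧
    ∀ ε : ℝ, 0 < ε → HasDensity {m | ∀ σ : Fin (n + 1) → ℤ, IsSign σ →
      (inBox (fun _ _ => 0) (fun _ _ => m) (Solvable p m σ) : ℝ) ≤
        ε * (m : ℝ) ^ ((n + 1) * (s + 1))} 1 := by
  classical
  refine ⟨fun S hS => ?_, fun ε hε => ?_⟩
  · obtain ⟨S', hS', hSS⟩ := Pool.Agent.H912.AE.reduceF S hS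
    have hT := Pool.Agent.H912.AE.trivB_iff hSS
    have hTpt : ∀ m, Pool.Agent.H912.AE.TrivB S' m → ∀ c, HasPt S c m ℚ := by
      intro m hm c
      obtain ⟨η, -, h⟩ := (hT m).1 hm
      exact ⟨η, h c⟩
    have hloc : ∀ (c : Fin R → ℤ) (m q : ℕ) [Fact q.Prime], HasPt S c m ℚ →
        HasPt S c m ℚ_[q] := fun c m q _ h => Pool.Agent.H912.AE.loc_of_rat hSS c m q h
    have hsize : ∀ (a b : ℕ) (ω : (Fin R → ℤ) × (Fin R → Fin (s + 1) → ℕ) ×
        (Fin R → Fin (s + 1) → ℕ)), a ≤ b → (IsSign ω.1 ∧ ∀ l j, b ≤ ω.2.2 l j) →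
        (IsSign ω.1 ∧ ∀ l j, a ≤ ω.2.2 l j) :=
      fun a b ω hab h => ⟨h.1, fun l j => hab.trans (h.2 l j)⟩
    have hanti : ∀ (a b m : ℕ) (ω : (Fin R → ℤ) × (Fin R → Fin (s + 1) → ℕ) ×
        (Fin R → Fin (s + 1) → ℕ)), a ≤ b →
        (inBox ω.2.1 ω.2.2 (fun e => ∀ (q : ℕ) [Fact q.Prime], q ≤ b →
          HasPt S (sUnits p ω.1 e) m ℚ_[q]) : ℝ) ≤
        (inBox ω.2.1 ω.2.2 (fun e => ∀ (q : ℕ) [Fact q.Prime], q ≤ a →
          HasPt S (sUnits p ω.1 e) m ℚ_[q]) : ℝ) :=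
      fun a b m ω hab => inBox_mono _ _ fun e he q _ hq => he q (hq.trans hab)
    constructor
    · intro ε hε
      obtain ⟨H₀, h⟩ := Pool.Agent.H912.AE.avg_sum
        (fun ω : (Fin R → ℤ) × (Fin R → Fin (s + 1) → ℕ) × (Fin R → Fin (s + 1) → ℕ) =>
          vol ω.2.2) (fun ω => vol_nonneg _)
        (fun H₀ ω => IsSign ω.1 ∧ ∀ l j, H₀ ≤ ω.2.2 l j) hsize
        (fun H₀ m ω => (inBox ω.2.1 ω.2.2 (fun e => ∀ (q : ℕ) [Fact q.Prime], q ≤ H₀ →
            HasPt S (sUnits p ω.1 e) m ℚ_[q]) : ℝ)) (fun _ _ _ => inBox_le _ _ _) hanti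
        (Pool.Agent.H912.AE.TrivB S') (main_count hS' hSS hp) hε
      refine ⟨H₀, fun M σ a H hM hσ hH => le_trans ?_ (h M (σ, a, H) hM ⟨hσ, hH⟩)⟩
      rw [pairs, Nat.cast_sum]
      refine Finset.sum_le_sum fun m _ => ?_
      by_cases ht : Pool.Agent.H912.AE.TrivB S' m
      · rw [if_pos ht]
        have h1 : inBox a H (fun e => (∀ (q : ℕ) [Fact q.Prime], q ≤ H₀ →
            HasPt S (sUnits p σ e) m ℚ_[q]) ∧ ¬ HasPt S (sUnits p σ e) m ℚ) = 0 :=
          inBox_false _ _ fun c hc => hc.2 (hTpt m ht _)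
        rw [h1, Nat.cast_zero]
      · rw [if_neg ht]
        exact inBox_mono _ _ fun e he => he.1
    · intro ε hε
      obtain ⟨H₀, h⟩ := Pool.Agent.H912.AE.avg_dens
        (fun ω : (Fin R → ℤ) × (Fin R → Fin (s + 1) → ℕ) × (Fin R → Fin (s + 1) → ℕ) =>
          vol ω.2.2) (fun ω => vol_nonneg _)
        (fun H₀ ω => IsSign ω.1 ∧ ∀ l j, H₀ ≤ ω.2.2 l j) hsize
        (fun H₀ m ω => (inBox ω.2.1 ω.2.2 (fun e => ∀ (q : ℕ) [Fact q.Prime], q ≤ H₀ →
            HasPt S (sUnits p ω.1 e) m ℚ_[q]) : ℝ)) (fun _ _ _ => inBox_le _ _ _) hanti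
        (Pool.Agent.H912.AE.TrivB S') (main_count hS' hSS hp)
        (fun m ω => (inBox ω.2.1 ω.2.2 (fun e => HasPt S (sUnits p ω.1 e) m ℚ) : ℝ))
        (BasePt S {0, 1, -1}) (BasePt S {0, 1}) (Pool.Agent.H912.AE.base_mono S)
        (fun m hm => (hT m).trans (Pool.Agent.H912.AE.base_odd S hm))
        (fun m hm hm1 => (hT m).trans (Pool.Agent.H912.AE.base_even S hm hm1))
        (fun m ω ht => inBox_true _ _ fun e => hTpt m ht _)
        (fun m ω => Nat.cast_nonneg _)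
        (fun H m ω => inBox_mono _ _ fun e he q _ _ => hloc _ m q he) hε
      refine ⟨H₀, fun M σ a H hM hσ hH => ?_⟩
      have h1 := h M (σ, a, H) hM ⟨hσ, hH⟩
      rw [pairs, Nat.cast_sum]
      exact h1
  · obtain ⟨S', hS', hSS⟩ := Pool.Agent.H912.AE.reduceF {diag n} isFamily_diag
    have hnt : ∀ m, ¬ Pool.Agent.H912.AE.TrivB S' m := by
      intro m hm
      obtain ⟨η, -, h⟩ := (Pool.Agent.H912.AE.trivB_iff hSS m).1 hm
      obtain ⟨i, hi⟩ := Function.ne_iff.1 (h 0).1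
      have h1 := (h (Pi.single i 1)).2 _ rfl
      rw [aeval_diag, Finset.sum_eq_single i] at h1
      · rw [Pi.single_eq_same] at h1
        simp only [Int.cast_one, one_mul] at h1
        exact pow_ne_zero m hi h1
      · intro j _ hj
        rw [Pi.single_eq_of_ne hj]
        simp
      · exact fun h => absurd (Finset.mem_univ _) h
    refine Pool.Agent.H912.AE.full_of fun ε' hε' => ?_
    obtain ⟨H₀, N₀, h⟩ := main_count hS' hSS hp (min ε (ε' / 2)) (lt_min hε (by positivity))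
    obtain ⟨N₁, hN₁⟩ := exists_nat_ge (2 * H₀ / ε')
    refine ⟨max N₀ N₁, fun M hM => ?_⟩
    have h0 := h M ((le_max_left _ _).trans hM)
    have hsub : (Finset.range M).filter (fun m => m ∉ {m : ℕ | ∀ σ : Fin (n + 1) → ℤ,
        IsSign σ → (inBox (fun _ _ => 0) (fun _ _ => m) (Solvable p m σ) : ℝ) ≤
          ε * (m : ℝ) ^ ((n + 1) * (s + 1))}) ⊆ Finset.range H₀ ∪
        (Finset.range M).filter (fun m => ¬ (Pool.Agent.H912.AE.TrivB S' m ∨
        ∀ ω : (Fin (n + 1) → ℤ) × (Fin (n + 1) → Fin (s + 1) → ℕ) ×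
          (Fin (n + 1) → Fin (s + 1) → ℕ), (IsSign ω.1 ∧ ∀ l j, H₀ ≤ ω.2.2 l j) →
          (inBox ω.2.1 ω.2.2 (fun e => ∀ (q : ℕ) [Fact q.Prime], q ≤ H₀ →
            HasPt {diag n} (sUnits p ω.1 e) m ℚ_[q]) : ℝ) ≤
              min ε (ε' / 2) * vol ω.2.2)) := by
      intro m hm
      rw [Finset.mem_filter] at hm
      rw [Finset.mem_union]
      by_cases hmH : m < H₀
      · exact Or.inl (Finset.mem_range.2 hmH)
      refine Or.inr (Finset.mem_filter.2 ⟨hm.1, fun h2 => hm.2 ?_⟩)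
      rcases h2 with h2 | h2
      · exact absurd h2 (hnt m)
      intro σ hσ
      have h3 := h2 (σ, fun _ _ => 0, fun _ _ => m) ⟨hσ, fun _ _ => not_lt.1 hmH⟩
      refine le_trans (inBox_mono' _ _ ?_) (h3.trans ?_)
      · intro e he hsol q hq _
        exact Pool.Agent.H912.AE.loc_of_rat hSS _ m q
          (hasPt_of_solvable hp (fun l j => by have := he l j; omega) hsol)
      · have h4 : vol (fun (_ : Fin (n + 1)) (_ : Fin (s + 1)) => m) =
            (m : ℝ) ^ ((n + 1) * (s + 1)) := by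
          unfold vol
          rw [Finset.prod_const, Finset.prod_const, Finset.card_univ, Finset.card_univ,
            Fintype.card_fin, Fintype.card_fin, ← pow_mul, mul_comm]
        rw [h4]
        exact mul_le_mul_of_nonneg_right (min_le_left _ _) (by positivity)
    have h1 : (((Finset.range M).filter (fun m => m ∉ {m : ℕ | ∀ σ : Fin (n + 1) → ℤ,
        IsSign σ → (inBox (fun _ _ => 0) (fun _ _ => m) (Solvable p m σ) : ℝ) ≤
          ε * (m : ℝ) ^ ((n + 1) * (s + 1))})).card : ℝ) ≤ H₀ + min ε (ε' / 2) * M := by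
      refine le_trans ?_ (add_le_add_right h0 _)
      have h2 := (Finset.card_le_card hsub).trans (Finset.card_union_le _ _)
      rw [Finset.card_range] at h2
      exact_mod_cast h2
    refine h1.trans ?_
    have h2 : (N₁ : ℝ) ≤ M := by exact_mod_cast (le_max_right N₀ N₁).trans hM
    have h3 : 2 * (H₀ : ℝ) ≤ ε' * M := by
      have h4 := hN₁.trans h2
      rw [div_le_iff₀ hε'] at h4
      linarith
    have h4 : min ε (ε' / 2) * (M : ℝ) ≤ ε' / 2 * M :=
      mul_le_mul_of_nonneg_right (min_le_right _ _) (Nat.cast_nonneg _)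
    linarith

end Pool.Agent.Results.MP_be1fae_nt.SUnitVectors
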