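import Pool.Agent.H573.AHB.TuH
import Pool.Agent.H573.AHB.DnB

/-!
# MP_be1fae_nt: coefficients `c²`, `±d²`, uniformly

For a finite set `T` of primes, `AtExponent T N z G` says: for all odd primes `p ≤ z` and all
positive integers `c`, `d` with `c² + d² < 2^p`, each of them the product of an integer `≤ z` and a
`T`-unit: every solution of `c² x^m - d² y^n = w^k` with `w` odd, or of `c² x^m + d² y^n = w^k`,
in integers with `x y ≠ 0`, `gcd(cx, dy) = 1`, `2N ∣ m`, `2N ∣ n`, `p ∣ k` has `c = 1`, `p ∣ dy`,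
`y` divisible by all `q ∈ G` and `|y| ≥ exp(z)`, or `d = 1`, `p ∣ cx` and the same for `x`. In
particular there is no solution at all if `c, d ≥ 2`.

(1) There is a set `S` of primes of positive logarithmic proportion (the sum of `1/s` over
`s ∈ S ∩ [X^{5/8}, X]` is bounded below) such that for every `T` there is `ε > 0` with
`AtExponent T s (s^ε) (G s)` for all large `s ∈ S`, with a set `G s` of at least `s^ε` primes
`q ≡ 1 (mod s)`.
(2) For every `η > 0` there is `κ > 0` such that `AtExponent T N (N^κ) ∅` holds for all but at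
most `η X` integers `N ≤ X`, for all large `X`.
-/

namespace Pool.Agent.Results.MP_be1fae_nt.SquareCoefficientsManyPrimes

open Pool.Agent.H573.AHB

/-- `n` is the product of a natural number at most `z` and one whose prime factors all lie in `T` -/
def Coeff (T : Finset ℕ) (z : ℝ) (n : ℕ) : Prop :=
  ∃ a t : ℕ, (a : ℝ) ≤ z ∧ (∀ r : ℕ, r.Prime → r ∣ t → r ∈ T) ∧ n = a * t

/-- `x` is divisible by all elements of `G`, and `|x| ≥ exp(z)` -/
def Large (G : Finset ℕ) (z : ℝ) (x : ℤ) : Prop :=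
  (∀ q ∈ G, (q : ℤ) ∣ x) ∧ Real.exp z ≤ |(x : ℝ)|

/-- All solutions of `c² x^m - d² y^n = w^k` with `w` odd, and all solutions of
`c² x^m + d² y^n = w^k`, in integers with `x, y` nonzero, `cx, dy` coprime, and positive exponents
with `2N ∣ m`, `2N ∣ n`, `p ∣ k`, have `c = 1`, `p ∣ dy` and `Large G z y`, or `d = 1`, `p ∣ cx`
and `Large G z x`. In particular there are none if `c, d ≥ 2`. -/
def OnlyLarge (c d p N : ℕ) (G : Finset ℕ) (z : ℝ) : Prop :=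
  ∀ (x y w : ℤ) (m n k : ℕ), 0 < m → 0 < n → 0 < k → x ≠ 0 → y ≠ 0 →
    IsCoprime ((c : ℤ) * x) (d * y) → 2 * N ∣ m → 2 * N ∣ n → p ∣ k →
    ((c : ℤ) ^ 2 * x ^ m - d ^ 2 * y ^ n = w ^ k ∧ Odd w) ∨
      (c : ℤ) ^ 2 * x ^ m + d ^ 2 * y ^ n = w ^ k →
    (c = 1 ∧ (p : ℤ) ∣ d * y ∧ Large G z y) ∨ (d = 1 ∧ (p : ℤ) ∣ c * x ∧ Large G z x)

/-- `OnlyLarge` for all odd primes `p ≤ z` and all `c`, `d` with `c² + d² < 2^p` which are products
of an integer `≤ z` and a `T`-unit -/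
def AtExponent (T : Finset ℕ) (N : ℕ) (z : ℝ) (G : Finset ℕ) : Prop :=
  ∀ p : ℕ, p.Prime → p ≠ 2 → (p : ℝ) ≤ z →
    ∀ c d : ℕ, 0 < c → 0 < d → Coeff T z c → Coeff T z d → c ^ 2 + d ^ 2 < 2 ^ p →
      OnlyLarge c d p N G z

theorem result :
    ∃ (S : Set ℕ) (G : ℕ → Finset ℕ),
      (∀ s ∈ S, s.Prime ∧ ∀ q ∈ G s, q.Prime ∧ s ∣ q - 1) ∧
      (∃ c : ℝ, 0 < c ∧ ∃ X₀ : ℕ, ∀ X : ℕ, X₀ ≤ X →
        c ≤ ∑ᶠ s ∈ {s : ℕ | s ∈ S ∧ (X : ℝ) ^ (5 / 8 : ℝ) ≤ s ∧ s ≤ X}, (1 : ℝ) / s) ∧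
      ∀ T : Finset ℕ,
        (∃ ε : ℝ, 0 < ε ∧ ∃ s₀ : ℕ, ∀ s ∈ S, s₀ ≤ s →
          (s : ℝ) ^ ε ≤ ((G s).card : ℝ) ∧ AtExponent T s ((s : ℝ) ^ ε) (G s)) ∧
        (∀ η : ℝ, 0 < η → ∃ κ : ℝ, 0 < κ ∧ ∃ X₁ : ℕ, ∀ X : ℕ, X₁ ≤ X →
          (Set.ncard {N : ℕ | N ≤ X ∧ ¬ AtExponent T N ((N : ℝ) ^ κ) ∅} : ℝ) ≤ η * X) := by
  classical
  obtain ⟨δ, hδ, S, hS1, hS2, G, hG, hfam⟩ := diagWW 1 le_rfl
    (fun j M q n => FamS (-1) (Finset.range j) M q n ∨ FamS (- -1) (Finset.range j) M q n)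
    (fun j => (usparse_FamS (-1) rfl _).or (usparse_FamS (- -1) rfl _)) 2
  refine ⟨S, G, fun s hs => ⟨(hS1 s hs).1, fun q hq => ?_⟩, hS2, ?_⟩
  · obtain ⟨k1, -, k3⟩ := (hG s hs).2 q hq
    exact ⟨k1, k3⟩
  intro T
  obtain ⟨j, hj⟩ : ∃ j, j = T.sup id + 1 := ⟨_, rfl⟩
  have hTj : ∀ r ∈ T, r < j := by
    intro r hr
    have : r ≤ T.sup id := Finset.le_sup (f := id) hr
    omega
  obtain ⟨ε', hε', hev⟩ := hfam j
  obtain ⟨s₁, hs₁⟩ := Filter.eventually_atTop.mp hev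
  obtain ⟨ε, hε⟩ : ∃ ε, ε = min (min ε' 1) δ := ⟨_, rfl⟩
  have hε0 : 0 < ε := by rw [hε]; exact lt_min (lt_min hε' one_pos) hδ
  have hεε' : ε ≤ ε' := by rw [hε]; exact (min_le_left _ _).trans (min_le_left _ _)
  have hε1 : ε ≤ 1 := by rw [hε]; exact (min_le_left _ _).trans (min_le_right _ _)
  have hεδ : ε ≤ δ := by rw [hε]; exact min_le_right _ _
  have main : ∀ s ∈ S, max s₁ j ≤ s →
      (s : ℝ) ^ ε ≤ ((G s).card : ℝ) ∧ AtExponent T s ((s : ℝ) ^ ε) (G s) := by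
    intro s hsS hs0
    obtain ⟨hsp, hs2⟩ := hS1 s hsS
    have hs1 : (1 : ℝ) ≤ s := by exact_mod_cast (by omega : 1 ≤ s)
    have hcardG : (s : ℝ) ^ ε ≤ ((G s).card : ℝ) :=
      (Real.rpow_le_rpow_of_exponent_le hs1 hεδ).trans (hG s hsS).1
    refine ⟨hcardG, ?_⟩
    intro p hp hp2 hpε c d hc hd hcc hcd hsz
    obtain ⟨i, rfl⟩ : ∃ i, p = 2 * i + 1 := hp.odd_of_ne_two hp2
    have hi : 1 ≤ i := by
      have := hp.two_le
      omega
    obtain ⟨M, hM⟩ : ∃ M, M = ⌊(s : ℝ) ^ ε⌋₊ := ⟨_, rfl⟩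
    have hZ1 : (1 : ℝ) ≤ (s : ℝ) ^ ε := Real.one_le_rpow hs1 hε0.le
    have hMle : (M : ℝ) ≤ (s : ℝ) ^ ε := by
      rw [hM]
      exact Nat.floor_le (by linarith)
    have hMε : (M : ℝ) ≤ (s : ℝ) ^ ε' :=
      hMle.trans (Real.rpow_le_rpow_of_exponent_le hs1 hεε')
    have hMs : M ≤ s := by
      have : (M : ℝ) ≤ s := by
        refine hMle.trans ?_
        calc (s : ℝ) ^ ε ≤ (s : ℝ) ^ (1 : ℝ) := Real.rpow_le_rpow_of_exponent_le hs1 hε1
          _ = s := Real.rpow_one _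
      exact_mod_cast this
    have hpM : 2 * i + 1 ≤ M := by
      rw [hM]
      exact Nat.le_floor hpε
    have hMT : ∀ C : ℕ, 0 < C → C < 2 ^ (2 * i + 1) → Coeff T ((s : ℝ) ^ ε) C →
        C ∈ MT (Finset.range j) M (2 ^ (2 * M + 1)) := by
      rintro C hC hC2 ⟨a, t, h1, h2, rfl⟩
      rw [mem_MT]
      have ha : 0 < a := Nat.pos_of_mul_pos_right hC
      have ht : 0 < t := Nat.pos_of_mul_pos_left hC
      refine ⟨a, t, ⟨ha, ?_⟩, ?_, rfl⟩
      · rw [hM]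
        exact Nat.le_floor h1
      · rw [mem_TUn]
        refine ⟨⟨ht, ?_⟩, ?_⟩
        · have e1 : t ≤ a * t := Nat.le_mul_of_pos_left _ ha
          have e2 : 2 ^ (2 * i + 1) ≤ 2 ^ (2 * M + 1) :=
            Nat.pow_le_pow_right (by norm_num) (by omega)
          omega
        · intro r hr
          rw [Nat.mem_primeFactors] at hr
          rw [Finset.mem_range]
          exact hTj r (h2 r hr.1 hr.2.1)
    have hcsq : c ≤ c ^ 2 := Nat.le_self_pow (by norm_num) c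
    have hdsq : d ≤ d ^ 2 := Nat.le_self_pow (by norm_num) d
    intro x y z m n k hm hn hk hx0 hy0 hco hsm hsn hpk heq
    obtain ⟨m', rfl⟩ := hsm
    obtain ⟨n', rfl⟩ := hsn
    obtain ⟨k', rfl⟩ := hpk
    have hlt : ∀ q ∈ G s, s < q := by
      intro q hq
      obtain ⟨k1, -, k3⟩ := (hG s hsS).2 q hq
      have := k1.two_le
      have := Nat.le_of_dvd (by omega) k3
      omega
    have hall : ∀ q ∈ G s, (c = 1 ∧ ((2 * i + 1 : ℕ) : ℤ) ∣ d * y ∧ (q : ℤ) ∣ y) ∨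
        (d = 1 ∧ ((2 * i + 1 : ℕ) : ℤ) ∣ c * x ∧ (q : ℤ) ∣ x) := by
      intro q hq
      obtain ⟨k1, -, k3⟩ := (hG s hsS).2 q hq
      have hlq := hlt q hq
      have hnb := hs₁ s ((le_max_left _ _).trans hs0) hsS q hq M hMε
      rw [not_or] at hnb
      have hTs : ∀ r ∈ Finset.range j, r ≤ s := by
        intro r hr
        rw [Finset.mem_range] at hr
        have := le_max_right s₁ j
        omega
      rcases heq with ⟨heq, hz⟩ | heq
      · exact sq_coreF (-1) (Or.inr rfl) c d i s M (Finset.range j) hc hd hi hp hsz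
          (hMT c hc (by omega) hcc) (hMT d hd (by omega) hcd) (by omega) hsp hs2 hMs hTs
          x y z m' n' k' hx0 hy0 hco (Or.inr hz) (by rw [← heq]; ring) q k1 hlq
          (by omega) k3 hnb.2
      · exact sq_coreF 1 (Or.inl rfl) c d i s M (Finset.range j) hc hd hi hp hsz
          (hMT c hc (by omega) hcc) (hMT d hd (by omega) hcd) (by omega) hsp hs2 hMs hTs
          x y z m' n' k' hx0 hy0 hco (Or.inl rfl) (by rw [← heq]; ring) q k1 hlq
          (by omega) k3 hnb.1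
    -- the set `G s` is not empty
    have hGne : (G s).Nonempty := by
      rw [← Finset.card_pos]
      have e2 : (0 : ℝ) < ((G s).card : ℝ) := by linarith
      exact_mod_cast e2
    have hpp : Prime ((2 * i + 1 : ℕ) : ℤ) := Nat.prime_iff_prime_int.mp hp
    have hbig : ∀ t : ℤ, t ≠ 0 → (∀ q ∈ G s, (q : ℤ) ∣ t) →
        Real.exp ((s : ℝ) ^ ε) ≤ |(t : ℝ)| := by
      intro t ht h
      have h1 := big_of_dvd (G s) t.natAbs (Int.natAbs_ne_zero.mpr ht) (fun q hq => by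
        have := hlt q hq
        exact ⟨((hG s hsS).2 q hq).1, by omega, Int.natCast_dvd.mp (h q hq)⟩)
      have h2 : ((t.natAbs : ℕ) : ℝ) = |(t : ℝ)| := by
        rw [Nat.cast_natAbs, Int.cast_abs]
      rw [← h2]
      exact (Real.exp_le_exp.mpr hcardG).trans h1
    obtain ⟨q0, hq0⟩ := hGne
    rcases hall q0 hq0 with ⟨hA1, hpy, -⟩ | ⟨hB1, hpx, -⟩
    · left
      have h1 : ∀ q ∈ G s, (q : ℤ) ∣ y := by
        intro q hq
        rcases hall q hq with ⟨-, -, h⟩ | ⟨-, h, -⟩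
        · exact h
        · exact absurd (hco.isUnit_of_dvd' h hpy) hpp.not_isUnit
      exact ⟨hA1, hpy, h1, hbig y hy0 h1⟩
    · right
      have h1 : ∀ q ∈ G s, (q : ℤ) ∣ x := by
        intro q hq
        rcases hall q hq with ⟨-, h, -⟩ | ⟨-, -, h⟩
        · exact absurd (hco.isUnit_of_dvd' hpx h) hpp.not_isUnit
        · exact h
      exact ⟨hB1, hpx, h1, hbig x hx0 h1⟩
  refine ⟨⟨ε, hε0, max s₁ j, main⟩, ?_⟩
  refine almost_all_of S (fun s hs => (hS1 s hs).1) hS2 (fun z N => AtExponent T N z ∅) ε hε0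
    (max s₁ j) ?_ ?_
  · intro s hs hs0 N hsN p hp hp2 hpz c d hc hd hcc hcd hsz x y w m n k hm hn hk hx hy hco
      h2m h2n hpk heq
    rcases (main s hs hs0).2 p hp hp2 hpz c d hc hd hcc hcd hsz x y w m n k hm hn hk hx hy
      hco ((Nat.mul_dvd_mul_left 2 hsN).trans h2m) ((Nat.mul_dvd_mul_left 2 hsN).trans h2n) hpk
      heq with ⟨h1, h2, -, h4⟩ | ⟨h1, h2, -, h4⟩
    · exact Or.inl ⟨h1, h2, fun q hq => absurd hq (Finset.notMem_empty q), h4⟩
    · exact Or.inr ⟨h1, h2, fun q hq => absurd hq (Finset.notMem_empty q), h4⟩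
  · intro z z' N hz hQ p hp hp2 hpz c d hc hd hcc hcd hsz x y w m n k hm hn hk hx hy hco
      h2m h2n hpk heq
    have hup : ∀ C, Coeff T z C → Coeff T z' C := by
      rintro C ⟨a, t, h1, h2, h3⟩
      exact ⟨a, t, h1.trans hz, h2, h3⟩
    rcases hQ p hp hp2 (hpz.trans hz) c d hc hd (hup c hcc) (hup d hcd) hsz x y w m n k hm hn
      hk hx hy hco h2m h2n hpk heq with ⟨h1, h2, h3, h4⟩ | ⟨h1, h2, h3, h4⟩
    · exact Or.inl ⟨h1, h2, h3, (Real.exp_le_exp.mpr hz).trans h4⟩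
    · exact Or.inr ⟨h1, h2, h3, (Real.exp_le_exp.mpr hz).trans h4⟩

end Pool.Agent.Results.MP_be1fae_nt.SquareCoefficientsManyPrimes
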